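import Mathlib
import Pool.Agent.W945.Pw.Stm

/-! Project PW (helper945), part LIVE: the last random bits may be k-wise independent. -/

set_option autoImplicit false

namespace Pool.Agent.W287.Pw.LIVE

open Finset
open Pool.Agent.W945.Pw

theorem rounds_dep {Ω₁ Ω₂ : Type} {n : ℕ} (D : Ω₁ → Fin n → Bool) (T : Ω₂ → Fin n → Bool) :
    ∀ (ℓ : ℕ) (s : Fin ℓ → Ω₁ × Ω₂) (u u' : Fin n → Bool) (i : Fin n),
      ((∀ j, T (s j).2 i = true) → u i = u' i) → rounds D T ℓ s u i = rounds D T ℓ s u' i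
  | 0, _, _, _, _, h => h (fun j => j.elim0)
  | ℓ + 1, s, u, u', i, h => by
    show xor (D (s 0).1 i) (T (s 0).2 i && rounds D T ℓ (fun i => s i.succ) u i) =
      xor (D (s 0).1 i) (T (s 0).2 i && rounds D T ℓ (fun i => s i.succ) u' i)
    cases hT : T (s 0).2 i with
    | false => simp
    | true =>
      rw [rounds_dep D T ℓ (fun i => s i.succ) u u' i]
      intro hj
      apply h
      intro j
      refine Fin.cases ?_ ?_ j
      · exact hT
      · exact hj

theorem avg_prod {S Ω : Type} [Fintype S] [Fintype Ω] (g : S → Ω → ℝ) :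
    avg (fun p : S × Ω => g p.1 p.2) = avg (fun s => avg (fun ω => g s ω)) := by
  unfold avg
  rw [Fintype.sum_prod_type, Fintype.card_prod, Nat.cast_mul, ← Finset.sum_div, div_div,
    mul_comm (Fintype.card S : ℝ)]

theorem avg_sub {S : Type} [Fintype S] (f g : S → ℝ) :
    avg f - avg g = avg (fun s => f s - g s) := by
  unfold avg
  rw [Finset.sum_sub_distrib, sub_div]

theorem avg_const {S : Type} [Fintype S] [Nonempty S] (c : ℝ) : avg (fun _ : S => c) = c := by
  unfold avg
  have h : (Fintype.card S : ℝ) ≠ 0 := by exact_mod_cast Fintype.card_ne_zero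
  rw [Finset.sum_const, Finset.card_univ, nsmul_eq_mul, mul_div_cancel_left₀ _ h]

theorem avg_mono {S : Type} [Fintype S] {f g : S → ℝ} (h : ∀ s, f s ≤ g s) : avg f ≤ avg g := by
  unfold avg
  exact div_le_div_of_nonneg_right (Finset.sum_le_sum (fun s _ => h s)) (Nat.cast_nonneg _)

theorem avg_abs {S : Type} [Fintype S] (f : S → ℝ) : |avg f| ≤ avg (fun s => |f s|) := by
  unfold avg
  rw [abs_div, Nat.abs_cast]
  exact div_le_div_of_nonneg_right (Finset.abs_sum_le_sum_abs _ _) (Nat.cast_nonneg _)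

theorem avg_chi (n k : ℕ) {Ω : Type} [Fintype Ω] [Nonempty Ω] (R : Ω → Fin n → Bool)
    (hR : Indep k R) (S : Finset (Fin n)) (hS : S.card ≤ k) :
    avg (fun ω => chi S (R ω)) = if S = ∅ then 1 else 0 := by
  by_cases h : S = ∅
  · rw [if_pos h, h]
    have h1 : (fun ω => chi ∅ (R ω)) = fun _ => (1 : ℝ) := by
      funext ω
      unfold chi
      simp
    rw [h1, avg_const]
  · rw [if_neg h]
    unfold avg
    rw [hR S (Finset.nonempty_iff_ne_empty.2 h) hS, zero_div]

/-- few live variables: exact -/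
theorem exact_of_small (hF : FOUR.Stm) (n k : ℕ) {Ω : Type} [Fintype Ω] [Nonempty Ω]
    (R : Ω → Fin n → Bool) (hR : Indep k R) (g : (Fin n → Bool) → ℝ) (P : Finset (Fin n))
    (hP : P.card ≤ k) (hg : Dep P g) : avg (fun ω => g (R ω)) = avg g := by
  obtain ⟨h1, _, h3⟩ := hF n g
  have h4 : (fun ω => g (R ω)) = fun ω => ∑ S : Finset (Fin n), hat g S * chi S (R ω) := by
    funext ω
    exact h1 (R ω)
  have h5 : avg (fun ω => ∑ S : Finset (Fin n), hat g S * chi S (R ω)) =
      ∑ S : Finset (Fin n), hat g S * avg (fun ω => chi S (R ω)) := by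
    unfold avg
    rw [Finset.sum_comm, Finset.sum_div]
    apply Finset.sum_congr rfl
    intro S _
    rw [← Finset.mul_sum, mul_div_assoc]
  rw [h4, h5, Finset.sum_eq_single ∅]
  · rw [avg_chi n k R hR ∅ (by simp), if_pos rfl, mul_one]
    unfold hat chi
    simp
  · intro S _ hS
    by_cases hSP : S ⊆ P
    · rw [avg_chi n k R hR S ((Finset.card_le_card hSP).trans hP), if_neg hS, mul_zero]
    · rw [h3 P hg S hSP, zero_mul]
  · intro h
    exact absurd (Finset.mem_univ _) h

/-- the number of seeds with all the bits of `S` equal to one -/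
theorem count_one (n k : ℕ) {Ω : Type} [Fintype Ω] [Nonempty Ω] (T : Ω → Fin n → Bool)
    (hT : Indep k T) (S : Finset (Fin n)) (hS : S.card = k) :
    ((univ.filter (fun ω => ∀ i ∈ S, T ω i = true)).card : ℝ) = (Fintype.card Ω : ℝ) / 2 ^ k := by
  have hind : ∀ ω, (if ∀ i ∈ S, T ω i = true then (1 : ℝ) else 0) =
      (1 / 2 ^ k) * ∑ S' ∈ S.powerset, (-1) ^ S'.card * chi S' (T ω) := by
    intro ω
    have h1 : ∏ i ∈ S, (1 + -sg (T ω i)) = ∑ S' ∈ S.powerset, (-1) ^ S'.card * chi S' (T ω) := by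
      rw [Finset.prod_one_add]
      apply Finset.sum_congr rfl
      intro S' _
      unfold chi
      rw [← Finset.prod_const, ← Finset.prod_mul_distrib]
      apply Finset.prod_congr rfl
      intro i _
      ring
    rw [← h1]
    by_cases h : ∀ i ∈ S, T ω i = true
    · rw [if_pos h]
      have h2 : ∏ i ∈ S, (1 + -sg (T ω i)) = 2 ^ k := by
        rw [← hS, ← Finset.prod_const]
        apply Finset.prod_congr rfl
        intro i hi
        rw [h i hi]
        unfold sg
        norm_num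
      rw [h2]
      field_simp
    · rw [if_neg h]
      push Not at h
      obtain ⟨i, hi, hi'⟩ := h
      have h2 : ∏ i ∈ S, (1 + -sg (T ω i)) = 0 := by
        apply Finset.prod_eq_zero hi
        have h3 : T ω i = false := by
          cases h4 : T ω i with
          | false => rfl
          | true => exact absurd h4 hi'
        rw [h3]
        unfold sg
        norm_num
      rw [h2, mul_zero]
  have h5 : ((univ.filter (fun ω => ∀ i ∈ S, T ω i = true)).card : ℝ) =
      ∑ ω, (if ∀ i ∈ S, T ω i = true then (1 : ℝ) else 0) := by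
    rw [Finset.sum_ite, Finset.sum_const, Finset.sum_const_zero, add_zero, nsmul_eq_mul, mul_one]
  rw [h5, Finset.sum_congr rfl (fun ω _ => hind ω), ← Finset.mul_sum, Finset.sum_comm,
    Finset.sum_eq_single ∅]
  · unfold chi
    simp
    ring
  · intro S' hS' hne
    rw [← Finset.mul_sum, hT S' (Finset.nonempty_iff_ne_empty.2 hne)
      ((Finset.card_le_card (Finset.mem_powerset.1 hS')).trans hS.le), mul_zero]
  · intro h
    exact absurd (Finset.empty_mem_powerset S) h

/-- live variables -/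
def live {Ω₁ Ω₂ : Type} {n : ℕ} (T : Ω₂ → Fin n → Bool) (ℓ : ℕ) (s : Fin ℓ → Ω₁ × Ω₂) :
    Finset (Fin n) := univ.filter (fun i => ∀ j, T (s j).2 i = true)

theorem count_live (n k ℓ : ℕ) {Ω₁ Ω₂ : Type} [Fintype Ω₁] [Fintype Ω₂] [Nonempty Ω₂]
    (T : Ω₂ → Fin n → Bool) (hT : Indep k T) (S : Finset (Fin n)) (hS : S.card = k) :
    ((univ.filter (fun s : Fin ℓ → Ω₁ × Ω₂ => S ⊆ live T ℓ s)).card : ℝ) =
      (Fintype.card (Fin ℓ → Ω₁ × Ω₂) : ℝ) / 2 ^ (k * ℓ) := by
  classical
  have h1 : (univ.filter (fun s : Fin ℓ → Ω₁ × Ω₂ => S ⊆ live T ℓ s)) =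
      Fintype.piFinset (fun _ : Fin ℓ =>
        (univ : Finset Ω₁) ×ˢ (univ.filter (fun ω => ∀ i ∈ S, T ω i = true))) := by
    ext s
    rw [Finset.mem_filter, Fintype.mem_piFinset]
    constructor
    · rintro ⟨_, h⟩ j
      rw [Finset.mem_product, Finset.mem_filter]
      refine ⟨Finset.mem_univ _, Finset.mem_univ _, ?_⟩
      intro i hi
      have h2 := h hi
      unfold live at h2
      exact (Finset.mem_filter.1 h2).2 j
    · intro h
      refine ⟨Finset.mem_univ _, ?_⟩
      intro i hi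
      unfold live
      rw [Finset.mem_filter]
      refine ⟨Finset.mem_univ _, ?_⟩
      intro j
      have h2 := h j
      rw [Finset.mem_product, Finset.mem_filter] at h2
      exact h2.2.2 i hi
  rw [h1, Fintype.card_piFinset_const, Finset.card_product, Nat.cast_pow, Nat.cast_mul,
    count_one n k T hT S hS, Fintype.card_fun, Fintype.card_prod, Fintype.card_fin, Nat.cast_pow,
    Nat.cast_mul, Finset.card_univ, pow_mul, ← div_pow, mul_div_assoc]

theorem main : LIVE.Stm := by
  classical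
  intro hF n k ℓ f Ω₁ Ω₂ Ω₃ _ _ _ _ _ _ D T R hf hT hR
  rw [avg_prod (fun (s : Fin ℓ → Ω₁ × Ω₂) (r : Ω₃) => f (rounds D T ℓ s (R r))),
    avg_prod (fun (s : Fin ℓ → Ω₁ × Ω₂) (u : Fin n → Bool) => f (rounds D T ℓ s u)), avg_sub]
  refine (avg_abs _).trans ?_
  set Bad : Finset (Fin ℓ → Ω₁ × Ω₂) := univ.filter (fun s => k < (live T ℓ s).card) with hBad
  have hdep : ∀ s : Fin ℓ → Ω₁ × Ω₂, Dep (live T ℓ s) (fun u => f (rounds D T ℓ s u)) := by
    intro s x y hxy
    have h1 : rounds D T ℓ s x = rounds D T ℓ s y := by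
      funext i
      apply rounds_dep
      intro hj
      apply hxy
      unfold live
      exact Finset.mem_filter.2 ⟨Finset.mem_univ _, hj⟩
    show f (rounds D T ℓ s x) = f (rounds D T ℓ s y)
    rw [h1]
  have hterm : ∀ s : Fin ℓ → Ω₁ × Ω₂,
      |avg (fun r : Ω₃ => f (rounds D T ℓ s (R r))) - avg (fun u => f (rounds D T ℓ s u))| ≤
        if s ∈ Bad then 1 else 0 := by
    intro s
    by_cases hs : s ∈ Bad
    · rw [if_pos hs]
      have a1 : 0 ≤ avg (fun r : Ω₃ => f (rounds D T ℓ s (R r))) := by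
        rw [← avg_const (S := Ω₃) 0]
        exact avg_mono (fun r => (hf _).1)
      have a2 : avg (fun r : Ω₃ => f (rounds D T ℓ s (R r))) ≤ 1 := by
        rw [← avg_const (S := Ω₃) 1]
        exact avg_mono (fun r => (hf _).2)
      have a3 : 0 ≤ avg (fun u => f (rounds D T ℓ s u)) := by
        rw [← avg_const (S := Fin n → Bool) 0]
        exact avg_mono (fun r => (hf _).1)
      have a4 : avg (fun u => f (rounds D T ℓ s u)) ≤ 1 := by
        rw [← avg_const (S := Fin n → Bool) 1]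
        exact avg_mono (fun r => (hf _).2)
      rw [abs_le]
      constructor <;> linarith
    · rw [if_neg hs]
      have h1 : (live T ℓ s).card ≤ k := by
        rw [hBad, Finset.mem_filter] at hs
        by_contra h
        exact hs ⟨Finset.mem_univ _, not_le.1 h⟩
      rw [exact_of_small hF n k R hR (fun u => f (rounds D T ℓ s u)) (live T ℓ s) h1 (hdep s),
        sub_self, abs_zero]
  refine (avg_mono hterm).trans ?_
  have h2 : avg (fun s : Fin ℓ → Ω₁ × Ω₂ => if s ∈ Bad then (1 : ℝ) else 0) =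
      (Bad.card : ℝ) / (Fintype.card (Fin ℓ → Ω₁ × Ω₂) : ℝ) := by
    unfold avg
    rw [Finset.sum_ite_mem, Finset.univ_inter, Finset.sum_const, nsmul_eq_mul, mul_one]
  rw [h2]
  have hpos : (0 : ℝ) < (Fintype.card (Fin ℓ → Ω₁ × Ω₂) : ℝ) := by
    exact_mod_cast Fintype.card_pos
  rw [div_le_iff₀ hpos]
  have h3 : Bad ⊆ (Finset.powersetCard k (univ : Finset (Fin n))).biUnion
      (fun S => univ.filter (fun s : Fin ℓ → Ω₁ × Ω₂ => S ⊆ live T ℓ s)) := by
    intro s hs
    rw [hBad, Finset.mem_filter] at hs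
    obtain ⟨S, hS1, hS2⟩ := Finset.exists_subset_card_eq hs.2.le
    rw [Finset.mem_biUnion]
    exact ⟨S, Finset.mem_powersetCard.2 ⟨Finset.subset_univ _, hS2⟩,
      Finset.mem_filter.2 ⟨Finset.mem_univ _, hS1⟩⟩
  have h4 : (Bad.card : ℝ) ≤ ∑ S ∈ Finset.powersetCard k (univ : Finset (Fin n)),
      ((univ.filter (fun s : Fin ℓ → Ω₁ × Ω₂ => S ⊆ live T ℓ s)).card : ℝ) := by
    have h5 := (Finset.card_le_card h3).trans Finset.card_biUnion_le
    exact_mod_cast h5
  have h6 : ∑ S ∈ Finset.powersetCard k (univ : Finset (Fin n)),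
      ((univ.filter (fun s : Fin ℓ → Ω₁ × Ω₂ => S ⊆ live T ℓ s)).card : ℝ) =
      (n.choose k : ℝ) * ((Fintype.card (Fin ℓ → Ω₁ × Ω₂) : ℝ) / 2 ^ (k * ℓ)) := by
    rw [Finset.sum_congr rfl (fun S hS =>
      count_live n k ℓ (Ω₁ := Ω₁) T hT S (Finset.mem_powersetCard.1 hS).2), Finset.sum_const,
      Finset.card_powersetCard, Finset.card_univ, Fintype.card_fin, nsmul_eq_mul]
  have h7 : (n.choose k : ℝ) ≤ (n : ℝ) ^ k := by exact_mod_cast Nat.choose_le_pow n k
  calc (Bad.card : ℝ) ≤ (n.choose k : ℝ) *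
        ((Fintype.card (Fin ℓ → Ω₁ × Ω₂) : ℝ) / 2 ^ (k * ℓ)) := h4.trans h6.le
    _ ≤ (n : ℝ) ^ k * ((Fintype.card (Fin ℓ → Ω₁ × Ω₂) : ℝ) / 2 ^ (k * ℓ)) :=
        mul_le_mul_of_nonneg_right h7 (by positivity)
    _ = (n : ℝ) ^ k / 2 ^ (k * ℓ) * (Fintype.card (Fin ℓ → Ω₁ × Ω₂) : ℝ) := by ring

end Pool.Agent.W287.Pw.LIVE
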