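import Mathlib
import Pool.Agent.W945.Pw.Stm2
import Pool.Agent.W287.Pw.LIVE

/-! Project PW (helper945), part JUNTA: functions of at most `2 k` variables are fooled exactly. -/

set_option autoImplicit false

namespace Pool.Agent.W287.Pw.JUNTA

open Finset
open Pool.Agent.W945.Pw
open Pool.Agent.W287.Pw.LIVE (exact_of_small)

theorem sg_xor (a b : Bool) : sg (xor a b) = sg a * sg b := by
  cases a <;> cases b <;> simp [sg]

theorem chi_mix {n : ℕ} (S : Finset (Fin n)) (d t u : Fin n → Bool) :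
    chi S (mix d t u) = chi S d * chi S (fun i => t i && u i) := by
  unfold chi mix
  rw [← Finset.prod_mul_distrib]
  apply Finset.prod_congr rfl
  intro i _
  exact sg_xor _ _

theorem indep_rounds (n k : ℕ) (Ω₁ Ω₂ Ω₃ : Type) [Fintype Ω₁] [Fintype Ω₂] [Fintype Ω₃]
    (D : Ω₁ → Fin n → Bool) (T : Ω₂ → Fin n → Bool) (R : Ω₃ → Fin n → Bool)
    (hD : Indep k D) (ℓ : ℕ) :
    Indep k (fun p : (Fin (ℓ + 1) → Ω₁ × Ω₂) × Ω₃ => rounds D T (ℓ + 1) p.1 (R p.2)) := by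
  intro S hS hk
  show ∑ p : (Fin (ℓ + 1) → Ω₁ × Ω₂) × Ω₃, chi S (rounds D T (ℓ + 1) p.1 (R p.2)) = 0
  rw [Fintype.sum_prod_type]
  rw [← (Fin.consEquiv (fun _ : Fin (ℓ + 1) => Ω₁ × Ω₂)).sum_comp, Fintype.sum_prod_type,
    Fintype.sum_prod_type]
  have h1 : ∀ (a1 : Ω₁) (a2 : Ω₂) (r : Fin ℓ → Ω₁ × Ω₂) (w : Ω₃),
      chi S (rounds D T (ℓ + 1) ((Fin.consEquiv (fun _ : Fin (ℓ + 1) => Ω₁ × Ω₂)) ((a1, a2), r))
        (R w)) = chi S (D a1) * chi S (fun i => T a2 i && rounds D T ℓ r (R w) i) := by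
    intro a1 a2 r w
    rw [← chi_mix]
    rfl
  have h2 : ∑ a1 : Ω₁, ∑ a2 : Ω₂, ∑ r : Fin ℓ → Ω₁ × Ω₂, ∑ w : Ω₃,
      chi S (rounds D T (ℓ + 1) ((Fin.consEquiv (fun _ : Fin (ℓ + 1) => Ω₁ × Ω₂)) ((a1, a2), r))
        (R w)) = (∑ a1 : Ω₁, chi S (D a1)) * ∑ a2 : Ω₂, ∑ r : Fin ℓ → Ω₁ × Ω₂, ∑ w : Ω₃,
          chi S (fun i => T a2 i && rounds D T ℓ r (R w) i) := by
    rw [Finset.sum_mul]
    apply Finset.sum_congr rfl
    intro a1 _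
    rw [Finset.mul_sum]
    apply Finset.sum_congr rfl
    intro a2 _
    rw [Finset.mul_sum]
    apply Finset.sum_congr rfl
    intro r _
    rw [Finset.mul_sum]
    apply Finset.sum_congr rfl
    intro w _
    exact h1 a1 a2 r w
  exact h2.trans (by rw [hD S hS hk, zero_mul])

theorem main : JUNTA.Stm := by
  intro hF n k ℓ f P Ω₁ Ω₂ Ω₃ _ _ _ _ _ _ D T R hℓ hD hf hP
  obtain ⟨ℓ', rfl⟩ : ∃ m, ℓ = m + 1 := ⟨ℓ - 1, by omega⟩
  exact exact_of_small hF n (2 * k)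
    (fun p : (Fin (ℓ' + 1) → Ω₁ × Ω₂) × Ω₃ => rounds D T (ℓ' + 1) p.1 (R p.2))
    (indep_rounds n (2 * k) Ω₁ Ω₂ Ω₃ D T R hD ℓ') f P hP hf

end Pool.Agent.W287.Pw.JUNTA
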